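import Pool.Agent.R468.GL.J4

/-!
THE JOINT LOCAL LIMIT LAW for the first hit of a finite set under the `3x+d` maps: the number of
integers `n` with `|n| ≤ x` whose orbit meets a finite set for the first time after exactly `k` steps,
exactly `o` of the terms before being odd.

Author: helper468. Uses the local limit theorem for the inverse trees (Pool/Agent/H499R2/LT) and the
thin set estimates (Pool/Agent/R344/TH).
-/

set_option autoImplicit false

namespace Pool.Agent.Results.MP_d0d59f_nt.JointLocalLimit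

open Filter Topology

/-- the `3x+d` map on the integers -/
def T (d x : ℤ) : ℤ := if x % 2 = 0 then x / 2 else (3 * x + d) / 2

/-- The orbit of `x` meets `F` for the first time after exactly `k` steps. -/
def FirstHit (d : ℤ) (F : Finset ℤ) (k : ℕ) (x : ℤ) : Prop :=
  (T d)^[k] x ∈ F ∧ ∀ i < k, (T d)^[i] x ∉ F

/-- the number of odd terms among `x, T x, ..., T^(k-1) x` -/
def odds (d : ℤ) (k : ℕ) (x : ℤ) : ℕ := ((Finset.range k).filter fun i => (T d)^[i] x % 2 = 1).card

/-- the number of the `n` with `1 ≤ n ≤ x` such that the orbit of `s n` meets `F` for the first time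
after exactly `k` steps, exactly `o` of the terms before being odd -/
noncomputable def Cnt (d s : ℤ) (F : Finset ℤ) (x : ℝ) (k o : ℕ) : ℕ :=
  {n : ℕ | 1 ≤ n ∧ (n : ℝ) ≤ x ∧ FirstHit d F k (s * n) ∧ odds d k (s * n) = o}.ncard

/-- The set of the positive integers with the property `P` has natural density `l`. -/
def HasDensity (P : ℕ → Prop) (l : ℝ) : Prop :=
  Tendsto (fun N : ℕ => (Set.ncard {n : ℕ | 1 ≤ n ∧ n ≤ N ∧ P n} : ℝ) / N) atTop (𝓝 l)

theorem odds_eq (d : ℤ) (k : ℕ) (x : ℤ) : Pool.Agent.H499R2.LT.od d k x = (odds d k x : ℤ) := by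
  induction k with
  | zero => rfl
  | succ k ih =>
    rw [Pool.Agent.H499R2.LT.od_add, ih]
    unfold odds
    rw [Finset.range_add_one, Finset.filter_insert]
    have h1 : Pool.Agent.H499R2.LT.od d 1 ((T d)^[k] x) = if (T d)^[k] x % 2 = 0 then 0 else 1 := by
      rw [Pool.Agent.H499R2.LT.od, Pool.Agent.H499R2.LT.od, add_zero]
    change _ + Pool.Agent.H499R2.LT.od d 1 ((T d)^[k] x) = _
    rw [h1]
    rcases Int.emod_two_eq_zero_or_one ((T d)^[k] x) with h | h
    · rw [if_pos h, if_neg (by omega)]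
      simp
    · rw [if_neg (by omega), if_pos h, Finset.card_insert_of_notMem (by simp)]
      push_cast
      ring

/-- THE JOINT LOCAL LIMIT LAW. Let `d` be odd and prime to `3`, `s = 1` or `s = -1`, and `F` a finite
set of integers. There are `δ`, `A ≥ 1` and a function `V` such that

* `δ` is the natural density of the integers of the sign of `s` whose orbit meets `F`; it is positive
  if `F` contains an integer of the sign of `s` prime to `3`;
* `V` is continuous and nondecreasing, `V t = 0` for `t ≤ 1 / A`, `V` is constant on `[A, ∞)`, and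
  `∫ V t / t² dt = δ log (4/3) / 2` over the positive reals;
* for all `K`, `Cnt d s F x k o = (V (3^o x / 2^k) + o(1)) binomial(k, o) / 3^o` as `k → ∞`, uniformly
  for all real `x` and all `o` with `|2 o - k| ≤ K √k`. -/
theorem result (d : ℤ) (hd : d % 2 = 1) (hd3 : ¬ (3 : ℤ) ∣ d) (s : ℤ) (hs : s = 1 ∨ s = -1)
    (F : Finset ℤ) :
    ∃ (δ A : ℝ) (V : ℝ → ℝ),
      ((∃ a ∈ F, 0 < s * a ∧ ¬ (3 : ℤ) ∣ a) → 0 < δ) ∧
      HasDensity (fun n => ∃ k : ℕ, (T d)^[k] (s * n) ∈ F) δ ∧
      1 ≤ A ∧ Continuous V ∧ Monotone V ∧ (∀ t, t ≤ 1 / A → V t = 0) ∧ (∀ t, A ≤ t → V t = V A) ∧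
      (∫ t in Set.Ioi (0 : ℝ), V t / t ^ 2 = Real.log (4 / 3) / 2 * δ) ∧
      ∀ K ε : ℝ, 0 < ε → ∃ k0 : ℕ, ∀ k o : ℕ, k0 ≤ k → |2 * (o : ℝ) - k| ≤ K * Real.sqrt k → ∀ x : ℝ,
        |(Cnt d s F x k o : ℝ) * 3 ^ o / (k.choose o : ℝ) - V (3 ^ o * x / 2 ^ k)| ≤ ε := by
  obtain ⟨δ, A, V, _, hpos, h1, h2, h3, h4, h5, h6, h7, h8⟩ :=
    Pool.Agent.R468.GL.joint_both (Int.odd_iff.2 hd) hd3 hs F
  refine ⟨δ, A, V, hpos, h1, h2, h3, h4, h5, h6, h7, ?_⟩
  intro K ε hε
  obtain ⟨k0, hk0⟩ := h8 K ε hε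
  refine ⟨k0, fun k o hk ho x => ?_⟩
  have h := hk0 k o hk ho x
  simp only [odds_eq, Nat.cast_inj] at h
  exact h

end Pool.Agent.Results.MP_d0d59f_nt.JointLocalLimit
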