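import Pool.Agent.R344.LS.Z

/-!
# Reciprocal masses for the 3x+d problem

For every finite set `F` the sum of `1/|x|` over the nonzero integers whose orbit under `T_d` meets `F`
for the first time at time `k` has a limit `L(F) ≤ log (4/3)` as `k → ∞`, and the sums over the `x`
with a prescribed number of odd terms follow the law of the fair random walk, uniformly over all sets
not visited too often by the walk. Some finite set meets all orbits if and only if `L(F) = log (4/3)`
for some finite `F`.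

Author: helper344.
-/

set_option autoImplicit false

namespace Pool.Agent.Results.MP_d0d59f_nt.ReciprocalMasses

open Filter Topology

/-- the `3x+d` map -/
def T (d x : ℤ) : ℤ := if x % 2 = 0 then x / 2 else (3 * x + d) / 2

/-- the orbit of `x` meets `F` for the first time at time `k` -/
def Hits (d : ℤ) (F : Finset ℤ) (k : ℕ) (x : ℤ) : Prop := (T d)^[k] x ∈ F ∧ ∀ i < k, (T d)^[i] x ∉ F

/-- the number of odd integers among the first `k` terms of the orbit of `x` -/
def odds (d : ℤ) (k : ℕ) (x : ℤ) : ℕ := ((Finset.range k).filter fun i => (T d)^[i] x % 2 = 1).card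

/-- the sum of `1/|x|` over a set of nonzero integers -/
noncomputable def mass (A : Set ℤ) : ℝ := ∑' x : A, (1 : ℝ) / |((x : ℤ) : ℝ)|

/-- the mass of the nonzero integers whose orbit meets `F` for the first time at time `k` -/
noncomputable def levelMass (d : ℤ) (F : Finset ℤ) (k : ℕ) : ℝ := mass {x : ℤ | x ≠ 0 ∧ Hits d F k x}

/-- the part of it with exactly `o` odd terms before the hit -/
noncomputable def cellMass (d : ℤ) (F : Finset ℤ) (k o : ℕ) : ℝ :=
  mass {x : ℤ | x ≠ 0 ∧ (Hits d F k x ∧ (odds d k x : ℤ) = o)}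

/-- the probability that the random walk which starts at `(a, b)` and in each step adds `(1, 0)` or
`(1, 1)`, each with probability `1/2`, visits `v` -/
noncomputable def visit (a b : ℕ) (v : ℕ × ℕ) : ℝ :=
  if a ≤ v.1 ∧ b ≤ v.2 then ((v.1 - a).choose (v.2 - b) : ℝ) / 2 ^ (v.1 - a) else 0

/-- RECIPROCAL MASSES. Let `d` be odd and not divisible by 3.

(1) For every finite `F` there is an `L` with `0 ≤ L ≤ log (4/3)` such that the sums defining
`levelMass d F k` converge, `levelMass d F k → L` as `k → ∞`, and: for all `B` and `ε > 0` there is a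
`k₀` such that for every finite set `S` of pairs `(k, o)` with `k ≥ k₀`, if from every starting point
the expected number of visits of the random walk to `S` is at most `B`, then the sum over
`(k, o) ∈ S` of `|cellMass d F k o - L binom (k, o) / 2^k|` is at most `ε`.

(2) Some finite set meets all orbits of `T_d` iff `levelMass d F k → log (4/3)` for some finite `F`. -/
theorem result (d : ℤ) (hd : Odd d) (hd3 : ¬ (3 : ℤ) ∣ d) :
    (∀ F : Finset ℤ, ∃ L : ℝ, 0 ≤ L ∧ L ≤ Real.log (4 / 3) ∧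
      (∀ k : ℕ, Summable (fun x : {x : ℤ | x ≠ 0 ∧ Hits d F k x} => (1 : ℝ) / |((x : ℤ) : ℝ)|)) ∧
      Tendsto (levelMass d F) atTop (𝓝 L) ∧
      ∀ B ε : ℝ, 0 < ε → ∃ k₀ : ℕ, ∀ S : Finset (ℕ × ℕ),
        (∀ a b : ℕ, ∑ v ∈ S, visit a b v ≤ B) → (∀ v ∈ S, k₀ ≤ v.1) →
        ∑ v ∈ S, |cellMass d F v.1 v.2 - L * ((v.1.choose v.2 : ℝ) / 2 ^ v.1)| ≤ ε) ∧
    ((∃ F : Finset ℤ, ∀ x : ℤ, ∃ k : ℕ, (T d)^[k] x ∈ F) ↔
      ∃ F : Finset ℤ, Tendsto (levelMass d F) atTop (𝓝 (Real.log (4 / 3)))) := by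
  refine ⟨fun F => ?_, Pool.Agent.R344.LS.both_iff hd hd3⟩
  obtain ⟨δ₁, δ₂, a0, a1, b0, b1, _, _, h3, h4, h5⟩ := Pool.Agent.R344.LS.both_cells hd hd3 F
  have hl := Pool.Agent.R344.LS.log43_pos
  refine ⟨Real.log (4 / 3) / 2 * (δ₁ + δ₂), by positivity, ?_, h3, h4, ?_⟩
  · have : δ₁ + δ₂ ≤ 2 := by linarith
    nlinarith
  · intro B ε hε
    obtain ⟨k₀, hk⟩ := h5 B ε hε
    refine ⟨k₀, fun S hB hS => ?_⟩
    refine le_trans (le_of_eq ?_) (hk S (fun a b => ?_) hS)
    · apply Finset.sum_congr rfl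
      intro v _
      unfold cellMass mass
      have e : {x : ℤ | x ≠ 0 ∧ (Hits d F v.1 x ∧ (odds d v.1 x : ℤ) = v.2)} =
          {x : ℤ | x ≠ 0 ∧ (Pool.Agent.R344.LS.FH d F v.1 x ∧ Pool.Agent.H499R2.LT.od d v.1 x = v.2)} := by
        ext x
        rw [Set.mem_setOf_eq, Set.mem_setOf_eq, Pool.Agent.R344.LS.od_card]
        exact Iff.rfl
      rw [e]
    · refine le_trans (le_of_eq ?_) (hB a b)
      rw [Finset.sum_filter]
      rfl

end Pool.Agent.Results.MP_d0d59f_nt.ReciprocalMasses
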