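import Pool.Agent.R344.SP.I
import Pool.Agent.R105.CZ.Signs

/-!
# Almost every trajectory of a `3x+d` map samples every bounded function like its local averages

Let `d` be odd and prime to `3` and let `T_d` be the `3x+d` map on the integers. For every
`κ < 2 / log (4 / 3)` and every `ε > 0` there is an `m` such that, for every multiple `q` of
`d * 3 ^ m` and every length `H`, for all large `N` and every sequence of functions `g 0, g 1, …` on
the integers with values in `[-1, 1]` (which may depend on `N`, and no regularity at all is assumed),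
all but at most `ε N` of the integers `x` with `0 < |x| ≤ N` satisfy, for every `t ≤ κ log |x|`: the
sum over `k < t` of `g k` at the term `T_d^k x` differs by at most `ε log |x|` from the sum of the
averages of `g k` over the progression `T_d^k x, T_d^k x + q, …, T_d^k x + (H - 1) q`.

The terms of an orbit of `T_d` stay in one class modulo `d` up to factors `2 ^ i 3 ^ j`, so the
differences `q` which are multiples of `d` are the natural ones.
-/

set_option autoImplicit false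

namespace Pool.Agent.Results.MP_d0d59f_nt.SamplingPrinciple

open Pool.Agent.R105.CZ
open Pool.Agent.H499R2.CO (Tz)

/-- The `3x+d` map on the integers. -/
def T (d x : ℤ) : ℤ := if x % 2 = 0 then x / 2 else (3 * x + d) / 2

theorem result (d : ℤ) (hd : Odd d) (h3 : ¬ (3 : ℤ) ∣ d) (κ ε : ℝ)
    (hκ : κ < 2 / Real.log (4 / 3)) (hε : 0 < ε) :
    ∃ m : ℕ, ∀ (q : ℤ) (H : ℕ), d * 3 ^ m ∣ q → 1 ≤ H → ∃ N₀ : ℕ, ∀ N ≥ N₀, ∀ g : ℕ → ℤ → ℝ,
      (∀ k x, |g k x| ≤ 1) →
        (Set.ncard {x : ℤ | x ≠ 0 ∧ |x| ≤ N ∧ ∃ t : ℕ, (t : ℝ) ≤ κ * Real.log |(x : ℝ)| ∧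
          ε * Real.log |(x : ℝ)| < |∑ k ∈ Finset.range t, (g k ((T d)^[k] x) -
            (∑ h ∈ Finset.range H, g k ((T d)^[k] x + q * h)) / H)|} : ℝ) ≤ ε * N := by
  have hd1 : d % 2 = 1 := Int.odd_iff.1 hd
  have hd1' : (-d) % 2 = 1 := by omega
  have hT : T d = Tz d := rfl
  obtain ⟨κ', hκ0, hκκ, hκ1⟩ := R344.SP.kappa_bridge hκ
  obtain ⟨m₁, hm₁⟩ := R344.SP.sampling hd1 (cop_of h3) hκ0 hκ1 (ε := ε / 4) (by positivity)
  obtain ⟨m₂, hm₂⟩ := R344.SP.sampling hd1' (cop_neg (cop_of h3)) hκ0 hκ1 (ε := ε / 4) (by positivity)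
  refine ⟨max m₁ m₂, fun q H hq hH => ?_⟩
  have hq₁ : d * 3 ^ m₁ ∣ q :=
    (mul_dvd_mul_left d (pow_dvd_pow 3 (le_max_left _ _))).trans hq
  have hq₂ : -d * 3 ^ m₂ ∣ -q := by
    rw [neg_mul, neg_dvd, dvd_neg]
    exact (mul_dvd_mul_left d (pow_dvd_pow 3 (le_max_right _ _))).trans hq
  obtain ⟨N₁, hN₁⟩ := hm₁ q H hq₁ hH
  obtain ⟨N₂, hN₂⟩ := hm₂ (-q) H hq₂ hH
  obtain ⟨N₀, hN₀⟩ := both (α := {g : ℕ → ℤ → ℝ // ∀ k x, |g k x| ≤ 1}) hκκ
    (fun g x t => |∑ k ∈ Finset.range t, (g.1 k ((T d)^[k] x) -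
      (∑ h ∈ Finset.range H, g.1 k ((T d)^[k] x + q * h)) / H)|) hε (by
    intro s hs
    rcases hs with rfl | rfl
    · refine ⟨N₁, fun N hN g S hS => hN₁ N hN g.1 g.2 S ?_⟩
      intro n hn
      obtain ⟨h1, h2, t, ht, hbig⟩ := hS n hn
      refine ⟨h1, h2, t, ht, ?_⟩
      simpa only [one_mul, hT] using hbig
    · refine ⟨N₂, fun N hN g S hS => hN₂ N hN (fun k x => g.1 k (-x)) (fun k x => g.2 _ _) S ?_⟩
      intro n hn
      obtain ⟨h1, h2, t, ht, hbig⟩ := hS n hn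
      refine ⟨h1, h2, t, ht, hbig.trans_eq ?_⟩
      congr 1
      apply Finset.sum_congr rfl
      intro k _
      rw [neg_one_mul, hT, iter_neg hd1]
      have e : ∀ h : ℕ, -((Tz (-d))^[k] (n : ℤ)) + q * h = -((Tz (-d))^[k] (n : ℤ) + -q * h) := by
        intro h; ring
      simp only [e])
  exact ⟨N₀, fun N hN g hg => hN₀ N hN ⟨g, hg⟩⟩

end Pool.Agent.Results.MP_d0d59f_nt.SamplingPrinciple
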