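import Pool.Agent.R105.CZ.Thin

/-!
# Almost every orbit of a `3x+d` map avoids every thin set until it reaches almost bounded values

Let `d` be odd and prime to `3` and let `T_d` be the `3x+d` map on the integers. Call a set `A` of
integers thin above `Y` (with exponent `δ > 0`) if for every `X ≥ Y` at most
`X exp (- (log X) ^ δ)` elements `a` of `A` satisfy `Y ≤ |a| ≤ X`. No other property of `A` is assumed.

For all `δ > 0` and all `B` there is a constant `K` such that for every `Y ≥ 2`, every set `A` thin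
above `Y` and every `N`, at most `K N / (log Y) ^ B` of the integers `x` with `|x| ≤ N` have an orbit
that meets `A` before it takes a value of absolute value smaller than `Y`.

Hence, if `A` is any fixed set with at most `X exp (- (log X) ^ δ)` elements in `[-X, X]` for all large
`X` and `f` is any function tending to infinity, then for almost every integer `x` (natural density
`1`) the orbit of `x` meets no element of `A` until it has taken a value `y` with `|y| < f |x|`.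
-/

set_option autoImplicit false

namespace Pool.Agent.Results.MP_d0d59f_nt.ThinSetsAvoided

open Pool.Agent.R105.CZ

/-- The `3x+d` map on the integers. -/
def T (d x : ℤ) : ℤ := if x % 2 = 0 then x / 2 else (3 * x + d) / 2

/-- The orbit of `x` meets `A` before it takes a value of absolute value below `Y`. -/
def Meets (d : ℤ) (A : Set ℤ) (Y : ℝ) (x : ℤ) : Prop :=
  ∃ k : ℕ, (T d)^[k] x ∈ A ∧ ∀ j ≤ k, Y ≤ |(((T d)^[j] x : ℤ) : ℝ)|

theorem finc (A : Set ℤ) (X : ℝ) : {a : ℤ | a ∈ A ∧ |(a : ℝ)| ≤ X}.Finite := by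
  apply (Set.finite_Icc (-⌊X⌋) ⌊X⌋).subset
  rintro x ⟨_, hx⟩
  rw [abs_le] at hx
  constructor
  · have h3 : ((-x : ℤ) : ℝ) ≤ X := by push_cast; linarith
    have := Int.le_floor.2 h3
    omega
  · exact Int.le_floor.2 hx.2

theorem result (d : ℤ) (hd : Odd d) (h3 : ¬ (3 : ℤ) ∣ d) :
    (∀ δ : ℝ, 0 < δ → ∀ B : ℕ, ∃ K : ℝ, ∀ Y : ℝ, 2 ≤ Y → ∀ A : Set ℤ,
      (∀ X : ℝ, Y ≤ X → (Set.ncard {a : ℤ | a ∈ A ∧ Y ≤ |(a : ℝ)| ∧ |(a : ℝ)| ≤ X} : ℝ)
        ≤ X * Real.exp (-(Real.log X) ^ δ)) →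
      ∀ N : ℕ, (Set.ncard {x : ℤ | |x| ≤ N ∧ Meets d A Y x} : ℝ) ≤ K * N / (Real.log Y) ^ B) ∧
    (∀ δ : ℝ, 0 < δ → ∀ A : Set ℤ,
      (∃ X₀ : ℝ, ∀ X : ℝ, X₀ ≤ X → (Set.ncard {a : ℤ | a ∈ A ∧ |(a : ℝ)| ≤ X} : ℝ)
        ≤ X * Real.exp (-(Real.log X) ^ δ)) →
      ∀ f : ℕ → ℝ, Filter.Tendsto f Filter.atTop Filter.atTop →
        Filter.Tendsto (fun N : ℕ => (Set.ncard {x : ℤ | |x| ≤ N ∧ Meets d A (f x.natAbs) x} : ℝ) / N)
          Filter.atTop (nhds 0)) := by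
  have quant := fun (δ : ℝ) (hδ : 0 < δ) (B : ℕ) => thin_both hd (cop_of h3) hδ B
  have hM : ∀ A Y x, MeetsZ d A Y x ↔ Meets d A Y x := fun A Y x => Iff.rfl
  refine ⟨fun δ hδ B => ?_, ?_⟩
  · obtain ⟨K, _, h⟩ := quant δ hδ B
    exact ⟨K, h⟩
  intro δ hδ A hA f hf
  obtain ⟨X₀, hX₀⟩ := hA
  obtain ⟨K, hK, h⟩ := quant δ hδ 1
  rw [Metric.tendsto_atTop]
  intro ε hε
  -- choose `Y`
  obtain ⟨Y, hY⟩ : ∃ Y : ℝ, Y = max (max 2 X₀) (Real.exp (4 * K / ε)) := ⟨_, rfl⟩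
  have hY2 : 2 ≤ Y := by rw [hY]; exact (le_max_left _ _).trans (le_max_left _ _)
  have hYX : X₀ ≤ Y := by rw [hY]; exact (le_max_right _ _).trans (le_max_left _ _)
  have hYK : 4 * K / ε ≤ Real.log Y := by
    rw [Real.le_log_iff_exp_le (by linarith), hY]
    exact le_max_right _ _
  have hlog : 0 < Real.log Y := Real.log_pos (by linarith)
  have hq := h Y hY2 A (by
    intro X hX
    refine le_trans ?_ (hX₀ X (hYX.trans hX))
    have hss : {a : ℤ | a ∈ A ∧ Y ≤ |(a : ℝ)| ∧ |(a : ℝ)| ≤ X} ⊆ {a : ℤ | a ∈ A ∧ |(a : ℝ)| ≤ X} :=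
      fun a ha => ⟨ha.1, ha.2.2⟩
    exact_mod_cast Set.ncard_le_ncard hss (finc A X))
  obtain ⟨n₀, hn₀⟩ := Filter.eventually_atTop.1 (hf.eventually_ge_atTop Y)
  obtain ⟨N₁, hN₁⟩ := exists_nat_ge (4 * (2 * (n₀ : ℝ) + 1) / ε)
  refine ⟨max N₁ 1, fun N hN => ?_⟩
  have hN1 : 1 ≤ N := (le_max_right _ _).trans hN
  have hNR : (0 : ℝ) < N := by exact_mod_cast hN1
  have hNN : (N₁ : ℝ) ≤ N := by exact_mod_cast (le_max_left _ _).trans hN
  rw [Real.dist_eq, sub_zero, abs_of_nonneg (by positivity), div_lt_iff₀ hNR]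
  have hfin2 : {x : ℤ | |x| ≤ N ∧ Meets d A Y x}.Finite := fin_le _ N
  have hsub : {x : ℤ | |x| ≤ N ∧ Meets d A (f x.natAbs) x}
      ⊆ ((Finset.Icc (-(n₀ : ℤ)) n₀ : Finset ℤ) : Set ℤ) ∪ {x : ℤ | |x| ≤ N ∧ Meets d A Y x} := by
    intro x hx
    by_cases hlt : x.natAbs < n₀
    · left
      rw [Finset.mem_coe, Finset.mem_Icc]
      omega
    · right
      obtain ⟨h1, k, h3, h4⟩ := hx
      exact ⟨h1, k, h3, fun j hj => (hn₀ x.natAbs (not_lt.1 hlt)).trans (h4 j hj)⟩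
  have hcard : (Set.ncard {x : ℤ | |x| ≤ N ∧ Meets d A (f x.natAbs) x} : ℝ)
      ≤ (2 * n₀ + 1) + (Set.ncard {x : ℤ | |x| ≤ N ∧ Meets d A Y x} : ℝ) := by
    have h1 := (Set.ncard_le_ncard hsub ((Finset.finite_toSet _).union hfin2)).trans
      (Set.ncard_union_le _ _)
    rw [Set.ncard_coe_finset, Int.card_Icc] at h1
    have h2 : ((n₀ : ℤ) + 1 - -(n₀ : ℤ)).toNat = 2 * n₀ + 1 := by omega
    rw [h2] at h1
    exact_mod_cast h1
  have h2 := hq N
  rw [pow_one] at h2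
  have h3 : K * N / Real.log Y ≤ ε / 4 * N := by
    rw [div_le_iff₀ hlog]
    rw [div_le_iff₀ hε] at hYK
    nlinarith
  have h4 : 2 * (n₀ : ℝ) + 1 ≤ ε / 4 * N := by
    rw [div_le_iff₀ hε] at hN₁
    nlinarith
  have h5 : (Set.ncard {x : ℤ | |x| ≤ N ∧ Meets d A Y x} : ℝ) ≤ ε / 4 * N := h2.trans h3
  nlinarith

end Pool.Agent.Results.MP_d0d59f_nt.ThinSetsAvoided
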